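import Pool.Agent.H.MP_d7d3dc_an.h17.HaarAvg
import Pool.Agent.H.MP_d7d3dc_an.h17.Rot
import Pool.Agent.H.MP_d7d3dc_an.helper67.Core

/-!
MP_d7d3dc_an, spaces of type 2 (helper96): an orthonormal basis all of whose vectors have a norm
comparable to the mean norm. The basis minimises a sum of exponentials; rotations by 45 degrees
show that all the norms are comparable.
-/

set_option autoImplicit false

namespace D7T

open D7L D7u D546neg MeasureTheory ProbabilityTheory Finset
open scoped RealInnerProductSpace BigOperators ENNReal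

/-- rotation of two vectors of an orthonormal system by 45 degrees -/
noncomputable def rot2 {m : ℕ} (O : Fin m → EE m) (i j : Fin m) : Fin m → EE m := fun l =>
  if l = i then (√2)⁻¹ • (O i + O j) else if l = j then (√2)⁻¹ • (O i - O j) else O l

lemma half : (√2)⁻¹ * (√2)⁻¹ = (1 / 2 : ℝ) := by
  rw [← mul_inv, Real.mul_self_sqrt (by norm_num)]
  norm_num

lemma rot2_mem {m : ℕ} {O : Fin m → EE m} (hO : O ∈ ON m) {i j : Fin m} (hij : i ≠ j) :
    rot2 O i j ∈ ON m := by
  have hji : j ≠ i := hij.symm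
  have h1 : ∀ l, l ≠ i → l ≠ j → ⟪O i + O j, O l⟫ = (0:ℝ) := by
    intro l h1 h2
    rw [inner_add_left, hO i l, hO j l, if_neg (Ne.symm h1), if_neg (Ne.symm h2), add_zero]
  have h2 : ∀ l, l ≠ i → l ≠ j → ⟪O i - O j, O l⟫ = (0:ℝ) := by
    intro l h1 h2
    rw [inner_sub_left, hO i l, hO j l, if_neg (Ne.symm h1), if_neg (Ne.symm h2), sub_zero]
  have h3 : ⟪O i + O j, O i + O j⟫ = (2:ℝ) := by
    rw [inner_add_left, inner_add_right, inner_add_right, hO i i, hO i j, hO j i, hO j j,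
      if_pos rfl, if_neg hij, if_neg hji, if_pos rfl]
    norm_num
  have h4 : ⟪O i - O j, O i - O j⟫ = (2:ℝ) := by
    rw [inner_sub_left, inner_sub_right, inner_sub_right, hO i i, hO i j, hO j i, hO j j,
      if_pos rfl, if_neg hij, if_neg hji, if_pos rfl]
    norm_num
  have h5 : ⟪O i + O j, O i - O j⟫ = (0:ℝ) := by
    rw [inner_add_left, inner_sub_right, inner_sub_right, hO i i, hO i j, hO j i, hO j j,
      if_pos rfl, if_neg hij, if_neg hji, if_pos rfl]
    norm_num
  have hh := half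
  intro a b
  unfold rot2
  by_cases hai : a = i
  · rw [if_pos hai]
    by_cases hbi : b = i
    · rw [if_pos hbi, if_pos (hai.trans hbi.symm), real_inner_smul_left, real_inner_smul_right, h3]
      linarith
    · have hab : a ≠ b := fun h => hbi (h.symm.trans hai)
      rw [if_neg hbi]
      by_cases hbj : b = j
      · rw [if_pos hbj, if_neg hab, real_inner_smul_left, real_inner_smul_right, h5]
        ring
      · rw [if_neg hbj, if_neg hab, real_inner_smul_left, h1 b hbi hbj, mul_zero]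
  · rw [if_neg hai]
    by_cases haj : a = j
    · rw [if_pos haj]
      by_cases hbi : b = i
      · rw [if_pos hbi, if_neg (fun h => hai (h.trans hbi)), real_inner_smul_left,
          real_inner_smul_right, real_inner_comm, h5]
        ring
      · rw [if_neg hbi]
        by_cases hbj : b = j
        · rw [if_pos hbj, if_pos (haj.trans hbj.symm), real_inner_smul_left,
            real_inner_smul_right, h4]
          linarith
        · rw [if_neg hbj, if_neg (fun h => hbj (h.symm.trans haj)), real_inner_smul_left,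
            h2 b hbi hbj, mul_zero]
    · rw [if_neg haj]
      by_cases hbi : b = i
      · rw [if_pos hbi, if_neg (fun h => hai (h.trans hbi)), real_inner_smul_right,
          real_inner_comm, h1 a hai haj, mul_zero]
      · rw [if_neg hbi]
        by_cases hbj : b = j
        · rw [if_pos hbj, if_neg (fun h => haj (h.trans hbj)), real_inner_smul_right,
            real_inner_comm, h2 a hai haj, mul_zero]
        · rw [if_neg hbj]
          exact hO a b

/-- the functional -/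
noncomputable def FE {m : ℕ} (P : Seminorm ℝ (EE m)) (l : ℝ) (O : Fin m → EE m) : ℝ :=
  ∑ i, Real.exp (l * P (O i))

lemma FE_cont {m : ℕ} (P : Seminorm ℝ (EE m)) (l : ℝ) : Continuous (FE P l) := by
  unfold FE
  have hP : Continuous P := seminorm_continuous P
  fun_prop

lemma FE_exists {m : ℕ} (P : Seminorm ℝ (EE m)) (l : ℝ) :
    ∃ O ∈ ON m, ∀ O' ∈ ON m, FE P l O ≤ FE P l O' := by
  obtain ⟨O, hO, h⟩ := (ON_compact m).exists_isMinOn (ON_nonempty m) (FE_cont P l).continuousOn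
  exact ⟨O, hO, fun O' hO' => h hO'⟩

/-- the sum over the rotated system -/
lemma FE_rot2 {m : ℕ} (P : Seminorm ℝ (EE m)) (l : ℝ) (O : Fin m → EE m) {i j : Fin m}
    (hij : i ≠ j) : FE P l (rot2 O i j) + Real.exp (l * P (O i)) + Real.exp (l * P (O j)) =
      FE P l O + Real.exp (l * P ((√2)⁻¹ • (O i + O j))) +
        Real.exp (l * P ((√2)⁻¹ • (O i - O j))) := by
  unfold FE
  have e : ∀ f : Fin m → ℝ, ∑ a, f a = f i + (f j + ∑ a ∈ (univ.erase i).erase j, f a) := by
    intro f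
    rw [← add_sum_erase univ f (mem_univ i),
      ← add_sum_erase (univ.erase i) f (mem_erase.2 ⟨hij.symm, mem_univ j⟩)]
  rw [e, e (fun a => Real.exp (l * P (O a)))]
  have h1 : rot2 O i j i = (√2)⁻¹ • (O i + O j) := by unfold rot2; rw [if_pos rfl]
  have h2 : rot2 O i j j = (√2)⁻¹ • (O i - O j) := by
    unfold rot2; rw [if_neg hij.symm, if_pos rfl]
  have h3 : ∑ a ∈ (univ.erase i).erase j, Real.exp (l * P (rot2 O i j a)) =
      ∑ a ∈ (univ.erase i).erase j, Real.exp (l * P (O a)) := by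
    refine sum_congr rfl fun a ha => ?_
    rw [mem_erase, mem_erase] at ha
    unfold rot2
    rw [if_neg ha.2.1, if_neg ha.1]
  rw [h1, h2, h3]
  ring

/-- all the norms of a minimising basis are comparable -/
lemma comparable {m : ℕ} (P : Seminorm ℝ (EE m)) {l : ℝ} (hl : 0 < l) {O : Fin m → EE m}
    (hO : O ∈ ON m) (hmin : ∀ O' ∈ ON m, FE P l O ≤ FE P l O') {i j : Fin m} :
    l * ((√2 - 1) * P (O i)) - √2 * Real.log 2 ≤ l * P (O j) := by
  have hs : (1.4:ℝ) < √2 := Real.lt_sqrt_of_sq_lt (by norm_num)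
  have hs2 : √2 < (1.5:ℝ) := (Real.sqrt_lt' (by norm_num)).2 (by norm_num)
  have hsq : √2 * √2 = (2:ℝ) := Real.mul_self_sqrt (by norm_num)
  have hlog : 0 < Real.log 2 := Real.log_pos (by norm_num)
  have hPi : 0 ≤ P (O i) := apply_nonneg P _
  have hPj : 0 ≤ P (O j) := apply_nonneg P _
  by_cases hij : i = j
  · subst hij
    have : (√2 - 1) * P (O i) ≤ P (O i) := by nlinarith
    nlinarith
  have h1 := hmin _ (rot2_mem hO hij)
  have h2 := FE_rot2 P l O hij
  have hinv : ‖(√2)⁻¹‖ = (√2)⁻¹ := Real.norm_of_nonneg (by positivity)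
  have h3 : P ((√2)⁻¹ • (O i + O j)) ≤ (√2)⁻¹ * (P (O i) + P (O j)) := by
    rw [map_smul_eq_mul, hinv]
    exact mul_le_mul_of_nonneg_left (map_add_le_add P _ _) (by positivity)
  have h4 : P ((√2)⁻¹ • (O i - O j)) ≤ (√2)⁻¹ * (P (O i) + P (O j)) := by
    rw [map_smul_eq_mul, hinv]
    exact mul_le_mul_of_nonneg_left (map_sub_le_add P _ _) (by positivity)
  have h5 : Real.exp (l * P ((√2)⁻¹ • (O i + O j))) ≤
      Real.exp (l * ((√2)⁻¹ * (P (O i) + P (O j)))) :=
    Real.exp_le_exp.2 (mul_le_mul_of_nonneg_left h3 hl.le)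
  have h6 : Real.exp (l * P ((√2)⁻¹ • (O i - O j))) ≤
      Real.exp (l * ((√2)⁻¹ * (P (O i) + P (O j)))) :=
    Real.exp_le_exp.2 (mul_le_mul_of_nonneg_left h4 hl.le)
  have h7 := Real.exp_pos (l * P (O j))
  have h8 : Real.exp (l * P (O i)) ≤ Real.exp (Real.log 2 +
      l * ((√2)⁻¹ * (P (O i) + P (O j)))) := by
    rw [Real.exp_add, Real.exp_log (by norm_num)]
    linarith
  have h9 := Real.exp_le_exp.1 h8
  have h10 : √2 * (√2)⁻¹ = (1:ℝ) := mul_inv_cancel₀ (by positivity)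
  have h11 : √2 * (l * P (O i)) ≤ √2 * (Real.log 2 + l * ((√2)⁻¹ * (P (O i) + P (O j)))) :=
    mul_le_mul_of_nonneg_left h9 (by positivity)
  have h12 : √2 * (Real.log 2 + l * ((√2)⁻¹ * (P (O i) + P (O j)))) =
      √2 * Real.log 2 + l * (P (O i) + P (O j)) := by
    calc _ = √2 * Real.log 2 + (√2 * (√2)⁻¹) * (l * (P (O i) + P (O j))) := by ring
      _ = _ := by rw [h10, one_mul]
  rw [h12] at h11
  linarith [h11]

/-- a basis with a small value of the functional (random rotations) -/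
lemma FE_small {m : ℕ} (hm : 1 ≤ m) (P : Seminorm ℝ (EE m)) (hP : ∀ x, P x ≤ ‖x‖) :
    ∃ O ∈ ON m, FE P (√(m / 3)) O ≤ m * Real.exp (∫ g, P g ∂(γ m) + 1) := by
  obtain ⟨Ω, _, μ, _, R, hR, hav⟩ := haar_avg m hm
  let e := EuclideanSpace.basisFun (Fin m) ℝ
  have h1 : ∀ i, ∫⁻ ω, ENNReal.ofReal (Real.exp (√(m / 3) * P (R ω (e i)))) ∂μ
      ≤ ENNReal.ofReal (Real.exp (∫ g, P g ∂(γ m) + 1)) := by
    intro i
    have := rot_moment m hm μ R hR hav P 1 zero_le_one (fun x => by rw [one_mul]; exact hP x)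
      (e i) (by simp [e])
    simpa using this
  have hPm : Measurable P := (seminorm_continuous P).measurable
  have hmeas : ∀ i, Measurable fun ω => ENNReal.ofReal (Real.exp (√(m / 3) * P (R ω (e i)))) := by
    intro i
    exact ENNReal.measurable_ofReal.comp (Real.measurable_exp.comp
      ((hPm.comp (hR (e i))).const_mul _))
  have h2 : ∫⁻ ω, ∑ i, ENNReal.ofReal (Real.exp (√(m / 3) * P (R ω (e i)))) ∂μ ≤
      ENNReal.ofReal (m * Real.exp (∫ g, P g ∂(γ m) + 1)) := by
    rw [lintegral_finsetSum _ fun i _ => hmeas i]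
    refine (sum_le_sum fun i _ => h1 i).trans ?_
    rw [sum_const, card_univ, Fintype.card_fin, nsmul_eq_mul,
      ENNReal.ofReal_mul (by positivity), ENNReal.ofReal_natCast]
  obtain ⟨ω, hω⟩ := exists_le_lintegral (μ := μ)
    (f := fun ω => ∑ i, ENNReal.ofReal (Real.exp (√(m / 3) * P (R ω (e i)))))
    (Finset.measurable_sum _ fun i _ => hmeas i).aemeasurable
  refine ⟨fun i => R ω (e i), ?_, ?_⟩
  · intro i j
    rw [LinearIsometryEquiv.inner_map_map]
    exact orthonormal_iff_ite.1 e.orthonormal i j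
  · have h3 := hω.trans h2
    rw [← ENNReal.ofReal_sum_of_nonneg fun i _ => (Real.exp_pos _).le] at h3
    exact (ENNReal.ofReal_le_ofReal_iff (by positivity)).1 h3

/-- **an orthonormal basis of vectors whose norms are comparable to the mean** (general form) -/
theorem exists_basis_gen {m : ℕ} (hm : 1 ≤ m) (P : Seminorm ℝ (EE m)) {b : ℝ} (hb : 0 < b)
    (hP : ∀ x, P x ≤ b * ‖x‖) :
    ∃ O ∈ ON m, ∀ i, √m * P (O i) ≤ 21 / 5 * (∫ g, P g ∂(γ m) + 2 * b) := by
  have hmR : (1:ℝ) ≤ m := by exact_mod_cast hm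
  set P' : Seminorm ℝ (EE m) := Real.toNNReal b⁻¹ • P with hP'
  have hval : ∀ x, P' x = b⁻¹ * P x := by
    intro x
    rw [hP', _root_.smul_apply, NNReal.smul_def, Real.coe_toNNReal _ (by positivity),
      smul_eq_mul]
  have hP1 : ∀ x, P' x ≤ ‖x‖ := by
    intro x
    rw [hval, inv_mul_le_iff₀ hb]
    exact hP x
  have hI1 : ∫ g, P' g ∂(γ m) = b⁻¹ * ∫ g, P g ∂(γ m) := by
    simp_rw [hval]
    rw [integral_const_mul]
  have hI0 : 0 ≤ ∫ g, P g ∂(γ m) := integral_nonneg fun g => apply_nonneg P g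
  obtain ⟨I, hI⟩ : ∃ I, I = ∫ g, P g ∂(γ m) := ⟨_, rfl⟩
  rw [← hI] at hI0 hI1
  obtain ⟨O₀, hO₀, h0⟩ := FE_small hm P' hP1
  obtain ⟨O, hO, hmin⟩ := FE_exists P' (√(m / 3))
  refine ⟨O, hO, fun i => ?_⟩
  rw [← hI]
  have hl : 0 < √((m:ℝ) / 3) := by positivity
  have h1 := fun j => comparable P' hl hO hmin (i := i) (j := j)
  have h2 : (m:ℝ) * Real.exp (√(m / 3) * ((√2 - 1) * P' (O i)) - √2 * Real.log 2) ≤
      m * Real.exp (∫ g, P' g ∂(γ m) + 1) := by
    refine le_trans ?_ ((hmin _ hO₀).trans h0)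
    unfold FE
    calc (m:ℝ) * Real.exp (√(m / 3) * ((√2 - 1) * P' (O i)) - √2 * Real.log 2)
        = ∑ _j : Fin m, Real.exp (√(m / 3) * ((√2 - 1) * P' (O i)) - √2 * Real.log 2) := by
          rw [sum_const, card_univ, Fintype.card_fin, nsmul_eq_mul]
      _ ≤ _ := sum_le_sum fun j _ => Real.exp_le_exp.2 (h1 j)
  have h3 := Real.exp_le_exp.1 (le_of_mul_le_mul_left h2 (by linarith))
  rw [hI1, hval] at h3
  have h4 : √((m:ℝ) / 3) * √3 = √m := by
    rw [← Real.sqrt_mul (by positivity)]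
    congr 1
    field_simp
  have hlog : Real.log 2 < 0.6931471808 := Real.log_two_lt_d9
  have hs : (1.41421:ℝ) < √2 := Real.lt_sqrt_of_sq_lt (by norm_num)
  have hs2 : √2 < (1.41422:ℝ) := (Real.sqrt_lt' (by norm_num)).2 (by norm_num)
  have hs3 : √3 < (1.73206:ℝ) := (Real.sqrt_lt' (by norm_num)).2 (by norm_num)
  have hlog0 : 0 < Real.log 2 := Real.log_pos (by norm_num)
  have h6 : √2 * Real.log 2 ≤ 0.9803 := by nlinarith
  have hPi : 0 ≤ P (O i) := apply_nonneg P _
  have hbi : b * b⁻¹ = 1 := mul_inv_cancel₀ hb.ne'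
  have h7 : b * (√(m / 3) * ((√2 - 1) * (b⁻¹ * P (O i))) - √2 * Real.log 2) ≤
      b * (b⁻¹ * I + 1) := mul_le_mul_of_nonneg_left h3 hb.le
  have h8 : √(m / 3) * ((√2 - 1) * P (O i)) ≤ I + b + b * (√2 * Real.log 2) := by
    have e1 : b * (√(m / 3) * ((√2 - 1) * (b⁻¹ * P (O i))) - √2 * Real.log 2) =
        (b * b⁻¹) * (√(m / 3) * ((√2 - 1) * P (O i))) - b * (√2 * Real.log 2) := by ring
    have e2 : b * (b⁻¹ * I + 1) = (b * b⁻¹) * I + b := by ring
    rw [e1, e2, hbi, one_mul, one_mul] at h7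
    linarith
  have h9 : √(m / 3) * ((√2 - 1) * P (O i)) ≤ I + 1.9803 * b := by nlinarith
  have h10 : √(m / 3) * (0.41421 * P (O i)) ≤ I + 1.9803 * b := by
    refine le_trans ?_ h9
    exact mul_le_mul_of_nonneg_left (mul_le_mul_of_nonneg_right (by linarith) hPi) hl.le
  have h11 : √3 * (√(m / 3) * (0.41421 * P (O i))) ≤ √3 * (I + 1.9803 * b) :=
    mul_le_mul_of_nonneg_left h10 (by positivity)
  have h12 : √3 * (√(m / 3) * (0.41421 * P (O i))) = 0.41421 * (√m * P (O i)) := by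
    rw [← h4]; ring
  have h13 : √3 * (I + 1.9803 * b) ≤ 1.73206 * (I + 1.9803 * b) :=
    mul_le_mul_of_nonneg_right hs3.le (by positivity)
  rw [h12] at h11
  have h14 : 0.41421 * (√m * P (O i)) ≤ 1.73206 * (I + 1.9803 * b) := h11.trans h13
  nlinarith

/-- **an orthonormal basis of vectors whose norms are at most a constant times the mean** -/
theorem exists_basis {m : ℕ} (hm : 1 ≤ m) (P : Seminorm ℝ (EE m)) {T : ℝ} (hT : 1 ≤ T)
    (hP : ∀ x, P x ≤ √(2 * m) * ‖x‖) (hI : ∫ g, P g ∂(γ m) ≤ √(2 * m) * T) :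
    ∃ O ∈ ON m, ∀ i, P (O i) ≤ 18 * T := by
  have hmR : (1:ℝ) ≤ m := by exact_mod_cast hm
  obtain ⟨O, hO, h⟩ := exists_basis_gen hm P (b := √(2 * m)) (by positivity) hP
  refine ⟨O, hO, fun i => ?_⟩
  have hs2 : √2 < (1.41422:ℝ) := (Real.sqrt_lt' (by norm_num)).2 (by norm_num)
  have hm0 : 0 < √(m:ℝ) := by positivity
  have h1 : √m * P (O i) ≤ √m * (18 * T) := by
    refine (h i).trans ?_
    have h2 : √(2 * (m:ℝ)) = √2 * √m := Real.sqrt_mul (by norm_num) _
    rw [h2] at hI ⊢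
    calc 21 / 5 * (∫ g, P g ∂(γ m) + 2 * (√2 * √m))
        ≤ 21 / 5 * (√2 * √m * T + 2 * (√2 * √m)) := by linarith
      _ = √m * (21 / 5 * √2 * (T + 2)) := by ring
      _ ≤ √m * (18 * T) := by
          refine mul_le_mul_of_nonneg_left ?_ hm0.le
          nlinarith
  exact le_of_mul_le_mul_left h1 hm0

end D7T
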