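import Pool.Agent.H.MP_d7d3dc_an.h17.GB

/-!
MP_d7d3dc_an, spaces of type 2 (helper96): the mean norm in the position.
-/

set_option autoImplicit false

namespace D7T

open D7u D546neg MeasureTheory ProbabilityTheory Finset
open scoped RealInnerProductSpace BigOperators ENNReal

variable {m n : ℕ}

lemma gamma_map (x : Fin n → E m) (hx : ∀ z, ∑ i, ⟪x i, z⟫ • x i = z) :
    (γ n).map (fun g => ∑ i, g i • x i) = γ m := by
  have hmeas : Measurable (fun g : E n => ∑ i, g i • x i) := by fun_prop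
  apply Measure.ext_of_charFun
  ext t
  rw [charFun_stdGaussian, charFun_apply,
    integral_map hmeas.aemeasurable (by fun_prop)]
  have h1 : ∀ g : E n, ⟪∑ i, g i • x i, t⟫ = ⟪g, (WithLp.toLp 2 fun i => ⟪x i, t⟫ : E n)⟫ := by
    intro g
    rw [sum_inner, PiLp.inner_apply]
    refine sum_congr rfl fun i _ => ?_
    rw [real_inner_smul_left]
    simp [mul_comm]
  simp_rw [h1]
  rw [← charFun_apply, charFun_stdGaussian]
  have h2 : ‖(WithLp.toLp 2 fun i => ⟪x i, t⟫ : E n)‖ ^ 2 = ‖t‖ ^ 2 := by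
    rw [EuclideanSpace.real_norm_sq_eq]
    have h3 : ⟪∑ i, ⟪x i, t⟫ • x i, t⟫ = ‖t‖ ^ 2 := by
      rw [hx, real_inner_self_eq_norm_sq]
    rw [← h3, sum_inner]
    refine sum_congr rfl fun i _ => ?_
    rw [real_inner_smul_left]
    ring
  have h4 : ((‖(WithLp.toLp 2 fun i => ⟪x i, t⟫ : E n)‖ : ℂ)) ^ 2 = (‖t‖ : ℂ) ^ 2 := by
    rw [← Complex.ofReal_pow, h2, Complex.ofReal_pow]
  rw [h4]

/-- the signed sum -/
noncomputable def sg (x : Fin n → E m) (g : E n) (ε : Fin n → Bool) : E m :=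
  ∑ i, if ε i then g i • x i else -(g i • x i)

lemma sg_cont (x : Fin n → E m) (ε : Fin n → Bool) : Continuous fun g => sg x g ε := by
  unfold sg
  refine continuous_finset_sum _ fun i _ => ?_
  by_cases h : ε i = true
  · simp only [if_pos h]
    fun_prop
  · simp only [if_neg h]
    fun_prop

lemma int_sg (P : Seminorm ℝ (E m)) (x : Fin n → E m) (hx : ∀ z, ∑ i, ⟪x i, z⟫ • x i = z)
    (ε : Fin n → Bool) : ∫ g, P (sg x g ε) ∂(γ n) = ∫ g, P g ∂(γ m) := by
  have hP : Continuous P := seminorm_continuous P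
  have h1 := gamma_map (fun i => if ε i then x i else -x i) (fun z => by
    refine Eq.trans ?_ (hx z)
    refine sum_congr rfl fun i _ => ?_
    by_cases h : ε i
    · simp [h]
    · simp [h])
  rw [← h1, integral_map (by fun_prop) hP.aestronglyMeasurable]
  refine integral_congr_ae (Filter.Eventually.of_forall fun g => ?_)
  show P (sg x g ε) = P (∑ i, g i • if ε i then x i else -x i)
  congr 1
  unfold sg
  refine sum_congr rfl fun i _ => ?_
  by_cases h : ε i
  · simp [h]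
  · simp [h]

/-- **the mean of the norm** in the position of a space of type `2` -/
theorem mean_le (P : Seminorm ℝ (E m)) (x : Fin n → E m) (hx : ∀ z, ∑ i, ⟪x i, z⟫ • x i = z)
    {T : ℝ} (hT : 0 ≤ T)
    (h2 : ∀ g : E n, ∑ ε : Fin n → Bool, P (sg x g ε) ^ 2 ≤ 2 ^ n * T ^ 2 * ‖g‖ ^ 2) :
    ∫ g, P g ∂(γ m) ≤ √n * T := by
  have hP : Continuous P := seminorm_continuous P
  have h3 : ∀ g : E n, ∑ ε : Fin n → Bool, P (sg x g ε) ≤ 2 ^ n * T * ‖g‖ := by
    intro g
    have h4 := sq_sum_le_card_mul_sum_sq (s := (Finset.univ : Finset (Fin n → Bool)))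
      (f := fun ε => P (sg x g ε))
    rw [card_univ, Fintype.card_fun, Fintype.card_bool, Fintype.card_fin] at h4
    push_cast at h4
    have h5 : (∑ ε : Fin n → Bool, P (sg x g ε)) ^ 2 ≤ (2 ^ n * T * ‖g‖) ^ 2 := by
      calc _ ≤ 2 ^ n * ∑ ε : Fin n → Bool, P (sg x g ε) ^ 2 := h4
        _ ≤ 2 ^ n * (2 ^ n * T ^ 2 * ‖g‖ ^ 2) := mul_le_mul_of_nonneg_left (h2 g) (by positivity)
        _ = _ := by ring
    exact le_of_sq_le_sq h5 (by positivity)
  have hint : ∀ ε : Fin n → Bool, Integrable (fun g => P (sg x g ε)) (γ n) := by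
    intro ε
    have h6 : ∀ g : E n, P (sg x g ε) ≤ 2 ^ n * T * ‖g‖ := fun g =>
      (single_le_sum (f := fun ε => P (sg x g ε)) (fun _ _ => apply_nonneg P _)
        (mem_univ ε)).trans (h3 g)
    refine (gb_integrable_norm.const_mul (2 ^ n * T)).mono'
      (hP.comp (sg_cont x ε)).aestronglyMeasurable (Filter.Eventually.of_forall fun g => ?_)
    rw [Real.norm_of_nonneg (apply_nonneg P _)]
    exact h6 g
  have h7 : (2:ℝ) ^ n * ∫ g, P g ∂(γ m) ≤ 2 ^ n * (√n * T) := by
    calc (2:ℝ) ^ n * ∫ g, P g ∂(γ m) = ∑ ε : Fin n → Bool, ∫ g, P (sg x g ε) ∂(γ n) := by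
          rw [sum_congr rfl fun ε _ => int_sg P x hx ε, sum_const, card_univ, Fintype.card_fun,
            Fintype.card_bool, Fintype.card_fin, nsmul_eq_mul]
          push_cast
          rfl
      _ = ∫ g, ∑ ε : Fin n → Bool, P (sg x g ε) ∂(γ n) := (integral_finsetSum _ fun ε _ => hint ε).symm
      _ ≤ ∫ g : E n, 2 ^ n * T * ‖g‖ ∂(γ n) :=
          integral_mono (integrable_finsetSum _ fun ε _ => hint ε)
            (gb_integrable_norm.const_mul _) h3
      _ = 2 ^ n * T * ∫ g : E n, ‖g‖ ∂(γ n) := integral_const_mul _ _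
      _ ≤ 2 ^ n * T * √n := mul_le_mul_of_nonneg_left int_norm_le (by positivity)
      _ = _ := by ring
  exact le_of_mul_le_mul_left h7 (by positivity)

end D7T
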