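import Mathlib

/-!
MP_d7d3dc_an, spaces of type 2 (helper96): the position. Among all families of `2 m` vectors of the
unit ball one maximises the determinant of `∑ x_i ⊗ x_i`.
-/

set_option autoImplicit false

namespace D7T

open Matrix Finset
open scoped RealInnerProductSpace BigOperators MatrixOrder

variable {m n : ℕ}

/-- the matrix `∑ x_i x_iᵀ` -/
noncomputable def fm (x : Fin n → Fin m → ℝ) : Matrix (Fin m) (Fin m) ℝ := (of x)ᵀ * of x

lemma fm_apply (x : Fin n → Fin m → ℝ) (j l : Fin m) : fm x j l = ∑ i, x i j * x i l := by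
  simp [fm, Matrix.mul_apply]

lemma fm_upd (x : Fin n → Fin m → ℝ) (i0 : Fin n) (k : Fin m → ℝ) :
    fm (Function.update x i0 k) = fm x - vecMulVec (x i0) (x i0) + vecMulVec k k := by
  ext j l
  rw [fm_apply, Matrix.add_apply, Matrix.sub_apply, vecMulVec_apply, vecMulVec_apply, fm_apply,
    ← add_sum_erase univ _ (mem_univ i0),
    ← add_sum_erase univ (fun i => x i j * x i l) (mem_univ i0)]
  have h1 : ∑ i ∈ univ.erase i0, Function.update x i0 k i j * Function.update x i0 k i l =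
      ∑ i ∈ univ.erase i0, x i j * x i l := by
    refine sum_congr rfl fun i hi => ?_
    rw [Function.update_of_ne (ne_of_mem_erase hi)]
  rw [h1, Function.update_self]
  ring

lemma fm_mulVec (x : Fin n → Fin m → ℝ) (L : Matrix (Fin m) (Fin m) ℝ) :
    fm (fun i => L *ᵥ x i) = L * fm x * Lᵀ := by
  have h : (of fun i => L *ᵥ x i : Matrix (Fin n) (Fin m) ℝ) = of x * Lᵀ := by
    ext i j
    simp only [of_apply, Matrix.mul_apply, mulVec, dotProduct, transpose_apply]
    exact sum_congr rfl fun l _ => mul_comm _ _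
  rw [fm, fm, h, transpose_mul, transpose_transpose, Matrix.mul_assoc, Matrix.mul_assoc,
    Matrix.mul_assoc]

lemma det_two (a z : Fin m → ℝ) : (1 - vecMulVec a a + vecMulVec z z).det =
    (1 - a ⬝ᵥ a) * (1 + z ⬝ᵥ z) + (a ⬝ᵥ z) ^ 2 := by
  let U : Matrix (Fin m) (Fin 2) ℝ := of fun j => ![-(a j), z j]
  let V : Matrix (Fin 2) (Fin m) ℝ := of ![a, z]
  have h1 : 1 - vecMulVec a a + vecMulVec z z = 1 + U * V := by
    ext j l
    simp only [U, V, Matrix.add_apply, Matrix.sub_apply, vecMulVec_apply, Matrix.mul_apply,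
      Fin.sum_univ_two, of_apply, Matrix.cons_val_zero, Matrix.cons_val_one]
    ring
  have hVU : ∀ c d, (1 + V * U : Matrix (Fin 2) (Fin 2) ℝ) c d =
      (1 : Matrix (Fin 2) (Fin 2) ℝ) c d + ∑ j, ![a, z] c j * ![-(a j), z j] d := by
    intro c d
    rw [Matrix.add_apply, Matrix.mul_apply]
    rfl
  have h2 : (1 + V * U : Matrix (Fin 2) (Fin 2) ℝ) 0 0 = 1 - a ⬝ᵥ a := by
    rw [hVU, one_apply_eq, sub_eq_add_neg]
    unfold dotProduct
    rw [← sum_neg_distrib]
    congr 1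
    refine sum_congr rfl fun j _ => ?_
    simp
  have h3 : (1 + V * U : Matrix (Fin 2) (Fin 2) ℝ) 0 1 = a ⬝ᵥ z := by
    rw [hVU, one_apply_ne (by decide), zero_add]
    rfl
  have h4 : (1 + V * U : Matrix (Fin 2) (Fin 2) ℝ) 1 0 = -(a ⬝ᵥ z) := by
    rw [hVU, one_apply_ne (by decide), zero_add]
    unfold dotProduct
    rw [← sum_neg_distrib]
    refine sum_congr rfl fun j _ => ?_
    simp [mul_comm]
  have h5 : (1 + V * U : Matrix (Fin 2) (Fin 2) ℝ) 1 1 = 1 + z ⬝ᵥ z := by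
    rw [hVU, one_apply_eq]
    rfl
  rw [h1, Matrix.det_one_add_mul_comm, Matrix.det_fin_two, h2, h3, h4, h5]
  ring

lemma fm_trace (x : Fin n → Fin m → ℝ) : (fm x).trace = ∑ i, x i ⬝ᵥ x i := by
  unfold Matrix.trace
  simp only [diag_apply, fm_apply, dotProduct]
  exact sum_comm

/-- the starting family -/
noncomputable def st (m : ℕ) (δ : ℝ) : Fin (m + m) → Fin m → ℝ :=
  Fin.addCases (fun i => Pi.single i δ) (fun _ => 0)

lemma fm_st (m : ℕ) (δ : ℝ) : fm (st m δ) = (δ ^ 2) • (1 : Matrix (Fin m) (Fin m) ℝ) := by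
  ext j l
  rw [fm_apply, Fin.sum_univ_add]
  simp only [st, Fin.addCases_left, Fin.addCases_right, Pi.zero_apply, mul_zero, sum_const_zero,
    add_zero]
  rw [sum_eq_single j]
  · rw [Pi.single_eq_same, Matrix.smul_apply, smul_eq_mul]
    by_cases h : j = l
    · subst h
      rw [Pi.single_eq_same, one_apply_eq]
      ring
    · rw [Pi.single_eq_of_ne (Ne.symm h), one_apply_ne h, mul_zero, mul_zero]
  · intro i _ hi
    rw [Pi.single_eq_of_ne (Ne.symm hi), zero_mul]
  · intro h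
    exact absurd (mem_univ j) h

section
variable {X : Type} [NormedAddCommGroup X] [NormedSpace ℝ X]

/-- the admissible families -/
def CC (n : ℕ) (S0 : (Fin m → ℝ) ≃L[ℝ] X) : Set (Fin n → Fin m → ℝ) := {x | ∀ i, ‖S0 (x i)‖ ≤ 1}

lemma CC_compact (S0 : (Fin m → ℝ) ≃L[ℝ] X) : IsCompact (CC n S0) := by
  have : FiniteDimensional ℝ X := LinearEquiv.finiteDimensional S0.toLinearEquiv
  have : ProperSpace X := FiniteDimensional.proper ℝ X
  have h1 : CC n S0 = Set.pi Set.univ fun _ => S0 ⁻¹' Metric.closedBall 0 1 := by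
    ext x
    simp [CC, Set.mem_pi]
  rw [h1]
  refine isCompact_univ_pi fun _ => ?_
  have h2 : S0 ⁻¹' Metric.closedBall 0 1 = S0.symm '' Metric.closedBall 0 1 := by
    rw [← ContinuousLinearEquiv.image_symm_eq_preimage]
  rw [h2]
  exact (isCompact_closedBall 0 1).image S0.symm.continuous

lemma det_fm_cont : Continuous fun x : Fin n → Fin m → ℝ => (fm x).det := by
  refine Continuous.matrix_det ?_
  refine continuous_matrix fun j l => ?_
  simp only [fm_apply]
  fun_prop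

theorem exists_max (S0 : (Fin m → ℝ) ≃L[ℝ] X) :
    ∃ x ∈ CC (m + m) S0, 0 < (fm x).det ∧ ∀ x' ∈ CC (m + m) S0, (fm x').det ≤ (fm x).det := by
  set δ : ℝ := (1 + ∑ i, ‖S0 (Pi.single i 1)‖)⁻¹ with hδ
  have hs : 0 ≤ ∑ i : Fin m, ‖S0 (Pi.single i 1)‖ := sum_nonneg fun _ _ => norm_nonneg _
  have hδ0 : 0 < δ := by positivity
  have hst : st m δ ∈ CC (m + m) S0 := by
    intro i
    refine Fin.addCases (fun i => ?_) (fun i => ?_) i
    · simp only [st, Fin.addCases_left]
      have h1 : (Pi.single i δ : Fin m → ℝ) = δ • Pi.single i 1 := by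
        rw [← Pi.single_smul, smul_eq_mul, mul_one]
      rw [h1, map_smul, norm_smul, Real.norm_of_nonneg hδ0.le, hδ, inv_mul_le_iff₀ (by positivity)]
      have h2 : ‖S0 (Pi.single i 1)‖ ≤ ∑ i, ‖S0 (Pi.single i 1)‖ :=
        single_le_sum (f := fun i => ‖S0 (Pi.single i 1)‖) (fun _ _ => norm_nonneg _) (mem_univ i)
      linarith
    · simp only [st, Fin.addCases_right]
      rw [map_zero, norm_zero]
      exact zero_le_one
  obtain ⟨x, hx, hmax⟩ := (CC_compact S0).exists_isMaxOn ⟨_, hst⟩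
    (det_fm_cont (n := m + m) (m := m)).continuousOn
  refine ⟨x, hx, ?_, fun x' hx' => hmax hx'⟩
  have h1 : (fm (st m δ)).det ≤ (fm x).det := hmax hst
  refine lt_of_lt_of_le ?_ h1
  rw [fm_st, Matrix.det_smul, det_one, mul_one]
  positivity

/-- **the position** -/
theorem exists_pos' (hm : 1 ≤ m) (S0 : (Fin m → ℝ) ≃L[ℝ] X) :
    ∃ (B L : Matrix (Fin m) (Fin m) ℝ) (x : Fin (m + m) → Fin m → ℝ), B * L = 1 ∧ L * B = 1 ∧
      fm x = 1 ∧ (∀ i, ‖S0 (B *ᵥ x i)‖ ≤ 1) ∧
      ∀ k : Fin m → ℝ, ‖S0 k‖ ≤ 1 → (L *ᵥ k) ⬝ᵥ (L *ᵥ k) ≤ 1 := by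
  obtain ⟨x, hx, hpos, hmax⟩ := exists_max S0
  have hps : (fm x).PosSemidef := by
    have h := Matrix.posSemidef_conjTranspose_mul_self (of x : Matrix (Fin (m + m)) (Fin m) ℝ)
    rwa [conjTranspose_eq_transpose_of_trivial] at h
  obtain ⟨A, hA⟩ := CStarAlgebra.nonneg_iff_eq_star_mul_self.mp hps.nonneg
  rw [star_eq_conjTranspose, conjTranspose_eq_transpose_of_trivial] at hA
  have hdA : A.det ≠ 0 := by
    intro h
    rw [hA, det_mul, h, mul_zero] at hpos
    exact lt_irrefl _ hpos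
  have hu : IsUnit (Aᵀ).det := by
    rw [det_transpose]
    exact isUnit_iff_ne_zero.2 hdA
  set L : Matrix (Fin m) (Fin m) ℝ := (Aᵀ)⁻¹ with hL
  have h1 : Aᵀ * L = 1 := Matrix.mul_nonsing_inv _ hu
  have h2 : L * Aᵀ = 1 := Matrix.nonsing_inv_mul _ hu
  have h3 : L * fm x * Lᵀ = 1 := by
    rw [hA, ← Matrix.mul_assoc, h2, Matrix.one_mul, ← transpose_transpose A, ← transpose_mul,
      h2, transpose_one]
  have h4 : fm (fun i => L *ᵥ x i) = 1 := by rw [fm_mulVec, h3]
  obtain ⟨i0, hi0⟩ : ∃ i0, (L *ᵥ x i0) ⬝ᵥ (L *ᵥ x i0) ≤ 1 / 2 := by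
    by_contra hcon
    push Not at hcon
    have h5 := fm_trace fun i => L *ᵥ x i
    rw [h4, Matrix.trace_one, Fintype.card_fin] at h5
    have h6 : ∑ _i : Fin (m + m), (1 / 2 : ℝ) < ∑ i, (L *ᵥ x i) ⬝ᵥ (L *ᵥ x i) := by
      refine sum_lt_sum_of_nonempty ⟨⟨0, by omega⟩, mem_univ _⟩ fun i _ => hcon i
    rw [← h5, sum_const, card_univ, Fintype.card_fin, nsmul_eq_mul] at h6
    push_cast at h6
    linarith
  refine ⟨Aᵀ, L, fun i => L *ᵥ x i, h1, h2, h4, fun i => ?_, fun k hk => ?_⟩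
  · rw [mulVec_mulVec, h1, one_mulVec]
    exact hx i
  · have h5 : Function.update x i0 k ∈ CC (m + m) S0 := by
      intro i
      by_cases hi : i = i0
      · subst hi
        rw [Function.update_self]
        exact hk
      · rw [Function.update_of_ne hi]
        exact hx i
    have h6 := hmax _ h5
    have h7 : L * fm (Function.update x i0 k) * Lᵀ =
        1 - vecMulVec (L *ᵥ x i0) (L *ᵥ x i0) + vecMulVec (L *ᵥ k) (L *ᵥ k) := by
      rw [← fm_mulVec]
      have h8 : (fun i => L *ᵥ Function.update x i0 k i) =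
          Function.update (fun i => L *ᵥ x i) i0 (L *ᵥ k) := by
        funext i
        by_cases hi : i = i0
        · subst hi
          rw [Function.update_self, Function.update_self]
        · rw [Function.update_of_ne hi, Function.update_of_ne hi]
      rw [h8, fm_upd, h4]
    have h8 : (L * fm (Function.update x i0 k) * Lᵀ).det ≤ (L * fm x * Lᵀ).det := by
      rw [det_mul, det_mul, det_mul, det_mul, det_transpose]
      have h9 : 0 ≤ L.det * L.det := mul_self_nonneg _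
      nlinarith [mul_le_mul_of_nonneg_left h6 h9]
    rw [h7, h3, det_one, det_two] at h8
    have h9 : 0 ≤ (L *ᵥ k) ⬝ᵥ (L *ᵥ k) := by
      unfold dotProduct
      exact sum_nonneg fun _ _ => mul_self_nonneg _
    nlinarith [sq_nonneg ((L *ᵥ x i0) ⬝ᵥ (L *ᵥ k))]

/-- **the position**: vectors `x_i` of the unit ball with `∑ x_i ⊗ x_i = Id`, and the unit ball is
contained in the Euclidean ball -/
theorem exists_pos (hm : 1 ≤ m) [FiniteDimensional ℝ X] (hX : Module.finrank ℝ X = m) :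
    ∃ (S : EuclideanSpace ℝ (Fin m) ≃L[ℝ] X) (x : Fin (m + m) → EuclideanSpace ℝ (Fin m)),
      (∀ z, ‖z‖ ≤ ‖S z‖) ∧ (∀ i, ‖S (x i)‖ ≤ 1) ∧ ∀ z, ∑ i, ⟪x i, z⟫ • x i = z := by
  have hfr : Module.finrank ℝ (Fin m → ℝ) = Module.finrank ℝ X := by
    rw [hX, Module.finrank_fin_fun]
  let S0 : (Fin m → ℝ) ≃L[ℝ] X := ContinuousLinearEquiv.ofFinrankEq hfr
  obtain ⟨B, L, x, hBL, hLB, hx, hxB, hL⟩ := exists_pos' hm S0
  let e : (Fin m → ℝ) ≃ₗ[ℝ] (Fin m → ℝ) :=
    { toFun := fun v => B *ᵥ v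
      map_add' := fun v w => mulVec_add B v w
      map_smul' := fun c v => mulVec_smul B c v
      invFun := fun v => L *ᵥ v
      left_inv := fun v => by
        show L *ᵥ (B *ᵥ v) = v
        rw [mulVec_mulVec, hLB, one_mulVec]
      right_inv := fun v => by
        show B *ᵥ (L *ᵥ v) = v
        rw [mulVec_mulVec, hBL, one_mulVec] }
  let S : EuclideanSpace ℝ (Fin m) ≃L[ℝ] X :=
    (EuclideanSpace.equiv (Fin m) ℝ).trans (e.toContinuousLinearEquiv.trans S0)
  have hS : ∀ z, S z = S0 (B *ᵥ z.ofLp) := fun z => rfl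
  refine ⟨S, fun i => WithLp.toLp 2 (x i), fun z => ?_, fun i => ?_, fun z => ?_⟩
  · have hn : z.ofLp ⬝ᵥ z.ofLp = ‖z‖ ^ 2 := by
      rw [EuclideanSpace.real_norm_sq_eq]
      unfold dotProduct
      exact sum_congr rfl fun i _ => (sq _).symm
    rcases (norm_nonneg (S z)).eq_or_lt with h0 | h0
    · have h1 : S z = 0 := norm_eq_zero.1 h0.symm
      have h2 : z = 0 := (map_eq_zero_iff S S.injective).1 h1
      rw [h2, norm_zero]
      exact norm_nonneg _
    · have h1 : ‖S0 (‖S z‖⁻¹ • (B *ᵥ z.ofLp))‖ ≤ 1 := by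
        rw [map_smul, norm_smul, ← hS, norm_inv, norm_norm, inv_mul_cancel₀ h0.ne']
      have h2 := hL _ h1
      rw [mulVec_smul, mulVec_mulVec, hLB, one_mulVec, smul_dotProduct, dotProduct_smul, hn,
        smul_eq_mul, smul_eq_mul] at h2
      have h3 : ‖S z‖⁻¹ * ‖z‖ ≤ 1 := by
        by_contra hcon
        rw [not_le] at hcon
        nlinarith
      rwa [inv_mul_le_iff₀ h0, mul_one] at h3
  · rw [hS]
    exact hxB i
  · ext j
    rw [WithLp.ofLp_sum, Finset.sum_apply]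
    have h1 : ∀ i, ⟪WithLp.toLp 2 (x i), z⟫ = ∑ l, x i l * z l := by
      intro i
      rw [PiLp.inner_apply]
      refine sum_congr rfl fun l _ => ?_
      simp [mul_comm]
    have h2 : ∀ i, (⟪WithLp.toLp 2 (x i), z⟫ • WithLp.toLp 2 (x i) :
        EuclideanSpace ℝ (Fin m)).ofLp j = ∑ l, x i j * x i l * z l := by
      intro i
      rw [h1]
      show (∑ l, x i l * z l) * x i j = _
      rw [sum_mul]
      exact sum_congr rfl fun l _ => by ring
    rw [sum_congr rfl fun i _ => h2 i, sum_comm]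
    have h3 : ∀ l, ∑ i, x i j * x i l * z l = (1 : Matrix (Fin m) (Fin m) ℝ) j l * z l := by
      intro l
      rw [← hx, fm_apply, sum_mul]
    rw [sum_congr rfl fun l _ => h3 l]
    simp [Matrix.one_apply]

end

end D7T
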