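import Pool.Agent.H.MP_d7d3dc_an.h96.Basis
import Pool.Agent.H.MP_d7d3dc_an.h96.Pos
import Pool.Agent.H.MP_d7d3dc_an.h96.Mom
import Pool.Agent.H.MP_d7d3dc_an.h17.Sys
import Pool.Agent.H.MP_d7d3dc_an.h98.Main

/-!
MP_d7d3dc_an, spaces of type 2 (helper96): the distances to `l_1^m` and `l_∞^m` and to the spaces of
numerical index one.
-/

set_option autoImplicit false

namespace D7T

open D7L D7u D546neg MeasureTheory ProbabilityTheory Finset Pool.Agent.H.MP_d7d3dc_an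
open scoped RealInnerProductSpace BigOperators ENNReal

/-- `X` has (Rademacher) type `2` with constant `T`: for all vectors `x_1, ..., x_n` the mean of
`‖± x_1 ± ... ± x_n‖ ^ 2` over all signs is at most `T ^ 2 * (‖x_1‖ ^ 2 + ... + ‖x_n‖ ^ 2)`. -/
def Type2 (X : Type) [NormedAddCommGroup X] [NormedSpace ℝ X] (T : ℝ) : Prop :=
  ∀ (n : ℕ) (x : Fin n → X),
    ∑ ε : Fin n → Bool, ‖∑ i, if ε i then x i else -x i‖ ^ 2 ≤ 2 ^ n * T ^ 2 * ∑ i, ‖x i‖ ^ 2

section
variable {X : Type} [NormedAddCommGroup X] [NormedSpace ℝ X] {m : ℕ}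

lemma Type2.one_le [Nontrivial X] {T : ℝ} (hT : 0 ≤ T) (h : Type2 X T) : 1 ≤ T := by
  obtain ⟨x, hx⟩ := exists_ne (0 : X)
  have h1 := h 1 fun _ => x
  have h2 : ∀ ε : Fin 1 → Bool, ‖∑ i : Fin 1, if ε i then x else -x‖ ^ 2 = ‖x‖ ^ 2 := by
    intro ε
    rw [Fin.sum_univ_one]
    split_ifs
    · rfl
    · rw [norm_neg]
  rw [sum_congr rfl fun ε _ => h2 ε, sum_const, card_univ, Fintype.card_fun, Fintype.card_bool,
    Fintype.card_fin, Fin.sum_univ_one, nsmul_eq_mul] at h1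
  push_cast at h1
  have h3 : 0 < ‖x‖ ^ 2 := by
    have := norm_pos_iff.2 hx
    positivity
  have h4 : 1 ≤ T ^ 2 := by
    by_contra hcon
    rw [not_le] at hcon
    nlinarith
  nlinarith

/-- the norm in coordinates -/
noncomputable def PS (S : EE m ≃L[ℝ] X) : Seminorm ℝ (EE m) :=
  (normSeminorm ℝ X).comp S.toLinearEquiv.toLinearMap

lemma PS_apply (S : EE m ≃L[ℝ] X) (z : EE m) : PS S z = ‖S z‖ := rfl

/-- **the position with a good orthonormal basis** -/
theorem exists_ob (hm : 1 ≤ m) [FiniteDimensional ℝ X] (hX : Module.finrank ℝ X = m) {T : ℝ}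
    (hT : 0 ≤ T) (h : Type2 X T) :
    ∃ (S : EE m ≃L[ℝ] X) (O : Fin m → EE m), O ∈ ON m ∧ (∀ z, ‖z‖ ≤ ‖S z‖) ∧
      ∀ i, ‖S (O i)‖ ≤ 18 * T := by
  have : Nontrivial X := by
    apply Module.nontrivial_of_finrank_pos (R := ℝ)
    omega
  have hT1 := h.one_le hT
  obtain ⟨S, x, h1, h2, h3⟩ := exists_pos hm hX
  have hcast : ((m + m : ℕ) : ℝ) = 2 * m := by push_cast; ring
  have hns : ∀ z, ∑ i, ⟪x i, z⟫ ^ 2 = ‖z‖ ^ 2 := by
    intro z
    rw [← real_inner_self_eq_norm_sq]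
    conv_rhs => rw [← h3 z]
    rw [sum_inner]
    refine sum_congr rfl fun i _ => ?_
    rw [h3 z, real_inner_smul_left]
    ring
  have hP : ∀ z, PS S z ≤ √(2 * m) * ‖z‖ := by
    intro z
    rw [PS_apply]
    have h4 : S z = ∑ i, ⟪x i, z⟫ • S (x i) := by
      conv_lhs => rw [← h3 z]
      rw [map_sum]
      exact sum_congr rfl fun i _ => by rw [map_smul]
    have h5 : ‖S z‖ ≤ ∑ i, |⟪x i, z⟫| := by
      rw [h4]
      refine (norm_sum_le _ _).trans (sum_le_sum fun i _ => ?_)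
      rw [norm_smul, Real.norm_eq_abs]
      exact mul_le_of_le_one_right (abs_nonneg _) (h2 i)
    refine h5.trans ?_
    have h6 := sq_sum_le_card_mul_sum_sq (s := (Finset.univ : Finset (Fin (m + m))))
      (f := fun i => |⟪x i, z⟫|)
    simp only [sq_abs] at h6
    rw [hns, card_univ, Fintype.card_fin, hcast] at h6
    refine le_of_sq_le_sq ?_ (by positivity)
    rw [mul_pow, Real.sq_sqrt (by positivity)]
    exact h6
  have hI : ∫ g, PS S g ∂(γ m) ≤ √(2 * m) * T := by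
    rw [← hcast]
    refine mean_le (PS S) x h3 hT fun g => ?_
    have h7 : ∀ ε : Fin (m + m) → Bool, PS S (sg x g ε) =
        ‖∑ i, if ε i then g i • S (x i) else -(g i • S (x i))‖ := by
      intro ε
      rw [PS_apply]
      unfold sg
      rw [map_sum]
      congr 1
      refine sum_congr rfl fun i _ => ?_
      split_ifs
      · rw [map_smul]
      · rw [map_neg, map_smul]
    rw [sum_congr rfl fun ε _ => by rw [h7 ε]]
    refine (h (m + m) fun i => g i • S (x i)).trans ?_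
    refine mul_le_mul_of_nonneg_left ?_ (by positivity)
    rw [EuclideanSpace.real_norm_sq_eq]
    refine sum_le_sum fun i _ => ?_
    rw [norm_smul, mul_pow, Real.norm_eq_abs, sq_abs]
    refine mul_le_of_le_one_right (sq_nonneg _) ?_
    exact pow_le_one₀ (norm_nonneg _) (h2 i)
  obtain ⟨O, hO, h8⟩ := exists_basis hm (PS S) hT1 hP hI
  exact ⟨S, O, hO, h1, fun i => by rw [← PS_apply]; exact h8 i⟩

lemma bm_le {Y : Type} [NormedAddCommGroup Y]
    [NormedSpace ℝ Y] (S : EE m ≃ₗ[ℝ] X) (T : EE m ≃ₗ[ℝ] Y) {a b : ℝ} (ha : 0 ≤ a)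
    (hb : 0 ≤ b) (h1 : ∀ z, ‖S z‖ ≤ a * ‖T z‖) (h2 : ∀ z, ‖T z‖ ≤ b * ‖S z‖) :
    bmDist X Y ≤ ENNReal.ofReal (b * a) := by
  have : FiniteDimensional ℝ X := LinearEquiv.finiteDimensional S
  let R : X ≃L[ℝ] Y := (S.symm.trans T).toContinuousLinearEquiv
  refine (iInf_le _ R).trans (ENNReal.ofReal_le_ofReal ?_)
  refine mul_le_mul ?_ ?_ (norm_nonneg _) hb
  · refine ContinuousLinearMap.opNorm_le_bound _ hb fun x => ?_
    have := h2 (S.symm x)
    rwa [S.apply_symm_apply] at this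
  · refine ContinuousLinearMap.opNorm_le_bound _ ha fun y => ?_
    have := h1 (T.symm y)
    rwa [T.apply_symm_apply] at this

/-- the coordinates in an orthonormal basis -/
noncomputable def cd {O : Fin m → EE m} (hO : O ∈ ON m) : EE m ≃ₗ[ℝ] (Fin m → ℝ) :=
  (ONb hO).repr.toLinearEquiv.trans (WithLp.linearEquiv 2 ℝ (Fin m → ℝ))

lemma cd_apply {O : Fin m → EE m} (hO : O ∈ ON m) (z : EE m) (i : Fin m) :
    cd hO z i = ⟪O i, z⟫ := by
  show (ONb hO).repr z i = _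
  rw [OrthonormalBasis.repr_apply_apply, ONb_apply]

lemma ON_expand {O : Fin m → EE m} (hO : O ∈ ON m) (z : EE m) : ∑ i, ⟪O i, z⟫ • O i = z := by
  have h := (ONb hO).sum_repr' z
  simpa only [ONb_apply] using h

lemma ON_sum_sq {O : Fin m → EE m} (hO : O ∈ ON m) (z : EE m) : ∑ i, ⟪O i, z⟫ ^ 2 = ‖z‖ ^ 2 := by
  rw [← real_inner_self_eq_norm_sq, ← ON_parseval hO z z]
  exact sum_congr rfl fun i _ => sq _

lemma ON_l1 {O : Fin m → EE m} (hO : O ∈ ON m) (z : EE m) : ∑ i, |⟪O i, z⟫| ≤ √m * ‖z‖ := by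
  have h6 := sq_sum_le_card_mul_sum_sq (s := (Finset.univ : Finset (Fin m)))
    (f := fun i => |⟪O i, z⟫|)
  simp only [sq_abs] at h6
  rw [ON_sum_sq hO, card_univ, Fintype.card_fin] at h6
  refine le_of_sq_le_sq ?_ (by positivity)
  rw [mul_pow, Real.sq_sqrt (by positivity)]
  exact h6

/-- upper bound for the norm by the `l_1` norm of the coordinates -/
lemma nrm_l1 {O : Fin m → EE m} (hO : O ∈ ON m) (S : EE m ≃L[ℝ] X) {K : ℝ}
    (hK : ∀ i, ‖S (O i)‖ ≤ K) (z : EE m) : ‖S z‖ ≤ K * ∑ i, |⟪O i, z⟫| := by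
  have h4 : S z = ∑ i, ⟪O i, z⟫ • S (O i) := by
    conv_lhs => rw [← ON_expand hO z]
    rw [map_sum]
    exact sum_congr rfl fun i _ => by rw [map_smul]
  rw [h4, mul_sum]
  refine (norm_sum_le _ _).trans (sum_le_sum fun i _ => ?_)
  rw [norm_smul, Real.norm_eq_abs, mul_comm]
  exact mul_le_mul_of_nonneg_right (hK i) (abs_nonneg _)

/-- distance to the cross-polytope `l_1^m` -/
theorem dist_cross (hm : 1 ≤ m) [FiniteDimensional ℝ X] (hX : Module.finrank ℝ X = m) {T : ℝ}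
    (hT : 0 ≤ T) (h : Type2 X T) :
    bmDist X (PiLp 1 fun _ : Fin m => ℝ) ≤ ENNReal.ofReal (18 * T * √m) := by
  obtain ⟨S, O, hO, h1, h2⟩ := exists_ob hm hX hT h
  let W : EE m ≃ₗ[ℝ] PiLp 1 fun _ : Fin m => ℝ :=
    (cd hO).trans (WithLp.linearEquiv 1 ℝ (Fin m → ℝ)).symm
  have hW : ∀ z, ‖W z‖ = ∑ i, |⟪O i, z⟫| := by
    intro z
    rw [PiLp.norm_eq_of_L1]
    refine sum_congr rfl fun i _ => ?_
    show ‖cd hO z i‖ = _
    rw [cd_apply, Real.norm_eq_abs]
  refine (bm_le S.toLinearEquiv W (a := 18 * T) (b := √m) (by positivity) (by positivity)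
    (fun z => ?_) (fun z => ?_)).trans (le_of_eq (by rw [mul_comm]))
  · rw [hW]
    exact nrm_l1 hO S h2 z
  · rw [hW]
    refine (ON_l1 hO z).trans ?_
    exact mul_le_mul_of_nonneg_left (h1 z) (by positivity)

/-- distance to the cross-polytope `l_1^m`, general form -/
theorem dist_gen (hm : 1 ≤ m) (S : EE m ≃L[ℝ] X) {b : ℝ} (h1 : ∀ z, ‖z‖ ≤ ‖S z‖)
    (h2 : ∀ z, ‖S z‖ ≤ b * ‖z‖) : bmDist X (PiLp 1 fun _ : Fin m => ℝ) ≤
      ENNReal.ofReal (21 / 5 * (∫ g, ‖S g‖ ∂(γ m) + 2 * b)) := by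
  have hmR : (1:ℝ) ≤ m := by exact_mod_cast hm
  have hm0 : 0 < √(m:ℝ) := by positivity
  have hb : 0 < b := by
    have h3 := (h1 (EuclideanSpace.single ⟨0, by omega⟩ 1)).trans
      (h2 (EuclideanSpace.single ⟨0, by omega⟩ 1))
    rw [EuclideanSpace.norm_single, norm_one, mul_one] at h3
    linarith
  obtain ⟨O, hO, h4⟩ := exists_basis_gen hm (PS S) hb fun x => h2 x
  obtain ⟨A, hA⟩ : ∃ A, A = 21 / 5 * (∫ g, ‖S g‖ ∂(γ m) + 2 * b) := ⟨_, rfl⟩
  have h5 : ∀ i, √m * ‖S (O i)‖ ≤ A := by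
    intro i
    rw [hA]
    exact h4 i
  rw [← hA]
  have hA0 : 0 ≤ A := (mul_nonneg hm0.le (norm_nonneg _)).trans (h5 ⟨0, by omega⟩)
  have h6 : ∀ i, ‖S (O i)‖ ≤ A / √m := by
    intro i
    rw [le_div_iff₀ hm0, mul_comm]
    exact h5 i
  let W : EE m ≃ₗ[ℝ] PiLp 1 fun _ : Fin m => ℝ :=
    (cd hO).trans (WithLp.linearEquiv 1 ℝ (Fin m → ℝ)).symm
  have hW : ∀ z, ‖W z‖ = ∑ i, |⟪O i, z⟫| := by
    intro z
    rw [PiLp.norm_eq_of_L1]
    refine sum_congr rfl fun i _ => ?_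
    show ‖cd hO z i‖ = _
    rw [cd_apply, Real.norm_eq_abs]
  refine (bm_le S.toLinearEquiv W (a := A / √m) (b := √m) (by positivity) (by positivity)
    (fun z => ?_) (fun z => ?_)).trans (le_of_eq (by rw [mul_div_cancel₀ _ hm0.ne']))
  · rw [hW]
    exact nrm_l1 hO S h6 z
  · rw [hW]
    refine (ON_l1 hO z).trans ?_
    exact mul_le_mul_of_nonneg_left (h1 z) (by positivity)

/-- the transposed map -/
lemma exists_tr [FiniteDimensional ℝ X] (hX : Module.finrank ℝ X = m)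
    (S : EE m ≃L[ℝ] StrongDual ℝ X) :
    ∃ U : EE m ≃ₗ[ℝ] X, ∀ z w, S w (U z) = ⟪w, z⟫ := by
  let V : X →ₗ[ℝ] EE m :=
    { toFun := fun x => (InnerProductSpace.toDual ℝ (EE m)).symm
        (LinearMap.toContinuousLinearMap
          { toFun := fun w => S w x
            map_add' := fun w w' => by simp
            map_smul' := fun t w => by simp })
      map_add' := by
        intro x x'
        rw [← map_add]
        congr 1
        ext w
        simp
      map_smul' := by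
        intro t x
        apply ext_inner_right ℝ
        intro w
        rw [InnerProductSpace.toDual_symm_apply, RingHom.id_apply, real_inner_smul_left,
          InnerProductSpace.toDual_symm_apply]
        simp }
  have hV : ∀ x w, ⟪w, V x⟫ = S w x := by
    intro x w
    rw [real_inner_comm]
    exact InnerProductSpace.toDual_symm_apply
  have hVinj : Function.Injective V := by
    rw [injective_iff_map_eq_zero]
    intro x hx
    have h1 : ∀ g : StrongDual ℝ X, g x = 0 := by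
      intro g
      have h2 := hV x (S.symm g)
      rwa [hx, inner_zero_right, S.apply_symm_apply, eq_comm] at h2
    by_contra hne
    obtain ⟨g, hg1, hg2⟩ := exists_dual_vector ℝ x (norm_ne_zero_iff.2 hne)
    rw [h1 g] at hg2
    exact hne (norm_eq_zero.1 (by simpa using hg2.symm))
  let V' : X ≃ₗ[ℝ] EE m := LinearEquiv.ofInjectiveOfFinrankEq V hVinj (by rw [hX]; simp)
  have hV' : ∀ x, V' x = V x := fun x => rfl
  refine ⟨V'.symm, fun z w => ?_⟩
  rw [← hV, ← hV', V'.apply_symm_apply]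

lemma finrank_sd [FiniteDimensional ℝ X] (hX : Module.finrank ℝ X = m) :
    Module.finrank ℝ (StrongDual ℝ X) = m := by
  have e1 : Module.finrank ℝ (StrongDual ℝ X) = Module.finrank ℝ (Module.Dual ℝ X) :=
    (LinearMap.toContinuousLinearMap (𝕜 := ℝ) (E := X) (F' := ℝ)).finrank_eq.symm
  rw [e1, Subspace.dual_finrank_eq]
  exact hX

/-- the position of the dual space -/
theorem exists_od (hm : 1 ≤ m) [FiniteDimensional ℝ X] (hX : Module.finrank ℝ X = m) {T : ℝ}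
    (hT : 0 ≤ T) (h : Type2 (StrongDual ℝ X) T) :
    ∃ (U : EE m ≃ₗ[ℝ] X) (O : Fin m → EE m), O ∈ ON m ∧
      (∀ z K, 0 ≤ K → (∀ i, |⟪O i, z⟫| ≤ K) → ‖U z‖ ≤ √m * K) ∧
      ∀ z i, |⟪O i, z⟫| ≤ 18 * T * ‖U z‖ := by
  obtain ⟨S, O, hO, h1, h2⟩ := exists_ob hm (finrank_sd hX) hT h
  obtain ⟨U, hU⟩ := exists_tr hX S
  refine ⟨U, O, hO, fun z K hK hz => ?_, fun z i => ?_⟩
  · refine NormedSpace.norm_le_dual_bound ℝ _ (by positivity) fun g => ?_
    obtain ⟨w, rfl⟩ := S.surjective g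
    rw [hU, Real.norm_eq_abs, ← ON_parseval hO w z]
    calc |∑ i, ⟪O i, w⟫ * ⟪O i, z⟫| ≤ ∑ i, |⟪O i, w⟫ * ⟪O i, z⟫| := abs_sum_le_sum_abs _ _
      _ ≤ ∑ i, |⟪O i, w⟫| * K := sum_le_sum fun i _ => by
          rw [abs_mul]
          exact mul_le_mul_of_nonneg_left (hz i) (abs_nonneg _)
      _ = (∑ i, |⟪O i, w⟫|) * K := (sum_mul _ _ _).symm
      _ ≤ (√m * ‖S w‖) * K := mul_le_mul_of_nonneg_right
          ((ON_l1 hO w).trans (mul_le_mul_of_nonneg_left (h1 w) (by positivity))) hK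
      _ = √m * K * ‖S w‖ := by ring
  · rw [← hU, ← Real.norm_eq_abs]
    refine ((S (O i)).le_opNorm (U z)).trans ?_
    exact mul_le_mul_of_nonneg_right (h2 i) (norm_nonneg _)

/-- distance to the cube `l_∞^m` -/
theorem dist_cube (hm : 1 ≤ m) [FiniteDimensional ℝ X] (hX : Module.finrank ℝ X = m) {T : ℝ}
    (hT : 0 ≤ T) (h : Type2 (StrongDual ℝ X) T) :
    bmDist X (Fin m → ℝ) ≤ ENNReal.ofReal (18 * T * √m) := by
  obtain ⟨U, O, hO, h1, h2⟩ := exists_od hm hX hT h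
  refine bm_le U (cd hO) (a := √m) (b := 18 * T) (by positivity) (by positivity)
    (fun z => ?_) (fun z => ?_)
  · refine h1 z _ (norm_nonneg _) fun i => ?_
    rw [← cd_apply hO, ← Real.norm_eq_abs]
    exact norm_le_pi_norm _ i
  · rw [pi_norm_le_iff_of_nonneg (by positivity)]
    intro i
    rw [cd_apply, Real.norm_eq_abs]
    exact h2 z i

end

end D7T
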