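import Pool.Agent.H.MP_d7d3dc_an.h96.Dist

/-!
MP_d7d3dc_an, spaces of type 2 (helper96): the order of the distance to the spaces of numerical
index one.
-/

set_option autoImplicit false

namespace D7T

open D7L D7u D546neg Finset Pool.Agent.H.MP_d7d3dc_an
open scoped RealInnerProductSpace BigOperators ENNReal

/-- the generalised parallelogram law -/
theorem parallelogram {H : Type} [NormedAddCommGroup H] [InnerProductSpace ℝ H] (n : ℕ) :
    ∀ x : Fin n → H, ∑ ε : Fin n → Bool, ‖∑ i, if ε i then x i else -x i‖ ^ 2 =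
      2 ^ n * ∑ i, ‖x i‖ ^ 2 := by
  induction n with
  | zero => intro x; simp
  | succ n ih =>
    intro x
    rw [← (Fin.consEquiv fun _ => Bool).sum_comp, Fintype.sum_prod_type_right]
    have h1 : ∀ ε : Fin n → Bool, ∑ b : Bool,
        ‖∑ i, if (Fin.consEquiv fun _ => Bool) (b, ε) i then x i else -x i‖ ^ 2 =
        2 * ‖x 0‖ ^ 2 + 2 * ‖∑ i : Fin n, if ε i then x i.succ else -x i.succ‖ ^ 2 := by
      intro ε
      rw [Fintype.sum_bool]
      have h2 : ∀ b : Bool, (∑ i, if (Fin.consEquiv fun _ => Bool) (b, ε) i then x i else -x i) =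
          (if b then x 0 else -x 0) + ∑ i : Fin n, if ε i then x i.succ else -x i.succ := by
        intro b
        rw [Fin.sum_univ_succ]
        simp [Fin.consEquiv]
      rw [h2, h2]
      obtain ⟨s, hs⟩ : ∃ s, s = ∑ i : Fin n, if ε i then x i.succ else -x i.succ := ⟨_, rfl⟩
      rw [← hs]
      have h3 := parallelogram_law_with_norm ℝ s (x 0)
      have h4 : (if true = true then x 0 else -x 0) + s = s + x 0 := by
        rw [if_pos rfl, add_comm]
      have h5 : (if false = true then x 0 else -x 0) + s = s - x 0 := by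
        rw [if_neg (by decide), neg_add_eq_sub]
      rw [h4, h5]
      nlinarith
    rw [sum_congr rfl fun ε _ => h1 ε, sum_add_distrib, ← mul_sum, ← mul_sum,
      ih fun i => x i.succ, Fin.sum_univ_succ, sum_const, card_univ, Fintype.card_fun,
      Fintype.card_bool, Fintype.card_fin, nsmul_eq_mul]
    push_cast
    ring

theorem type2_hilbert {H : Type} [NormedAddCommGroup H] [InnerProductSpace ℝ H] {T : ℝ}
    (hT : 1 ≤ T) : Type2 H T := by
  intro n x
  rw [parallelogram]
  have h1 : 0 ≤ ∑ i, ‖x i‖ ^ 2 := sum_nonneg fun _ _ => sq_nonneg _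
  refine mul_le_mul_of_nonneg_right ?_ h1
  exact le_mul_of_one_le_right (by positivity) (one_le_pow₀ hT)

section
variable {X : Type} [NormedAddCommGroup X] [NormedSpace ℝ X] {m : ℕ}

theorem bm_one (hm : 1 ≤ m) [FiniteDimensional ℝ X] (hX : Module.finrank ℝ X = m) {T : ℝ}
    (hT : 1 ≤ T) (h : Type2 X T) :
    ∃ β : Fin m → Fin m, bmDist X (CL β) ≤ ENNReal.ofReal (18 * T * √m) := by
  obtain ⟨S, O, hO, h1, h2⟩ := exists_ob hm hX (zero_le_one.trans hT) h
  refine ⟨id, bmDist_le_of_system X S O O hO id (fun _ => 18 * T) (fun _ => by positivity) ?_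
    (18 * T * √m) ?_⟩
  · intro b ε hε
    show ‖S (∑ i ∈ Finset.univ.filter (fun i => i = b), ε i • O i)‖ ≤ 18 * T
    have h1 : (Finset.univ.filter (fun i : Fin m => i = b)) = {b} := by
      ext i; simp
    rw [h1, Finset.sum_singleton, map_smul, norm_smul]
    have h3 : ‖ε b‖ = 1 := by
      rcases hε b with h3 | h3 <;> rw [h3] <;> simp
    rw [h3, one_mul]
    exact h2 b
  · intro z
    show ∑ b, 18 * T * ‖(fun i => ⟪z, O i⟫ : {i : Fin m // id i = b} → ℝ)‖ ≤
      18 * T * √m * ‖S z‖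
    have h3 : ∀ b : Fin m, ‖(fun i => ⟪z, O i⟫ : {i : Fin m // id i = b} → ℝ)‖ ≤ |⟪O b, z⟫| := by
      intro b
      rw [pi_norm_le_iff_of_nonneg (abs_nonneg _)]
      rintro ⟨i, rfl⟩
      rw [real_inner_comm]
      exact le_rfl
    rw [← Finset.mul_sum]
    calc 18 * T * ∑ b, ‖(fun i => ⟪z, O i⟫ : {i : Fin m // id i = b} → ℝ)‖
        ≤ 18 * T * ∑ b, |⟪O b, z⟫| :=
          mul_le_mul_of_nonneg_left (Finset.sum_le_sum fun b _ => h3 b) (by positivity)
      _ ≤ 18 * T * (√m * ‖S z‖) := mul_le_mul_of_nonneg_left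
          ((ON_l1 hO z).trans (mul_le_mul_of_nonneg_left (h1 z) (by positivity))) (by positivity)
      _ = _ := by ring

theorem bm_top (hm : 1 ≤ m) [FiniteDimensional ℝ X] (hX : Module.finrank ℝ X = m) {T : ℝ}
    (hT : 1 ≤ T) (h : Type2 (StrongDual ℝ X) T) :
    ∃ β : Fin m → Fin m, bmDist X (CL β) ≤ ENNReal.ofReal (18 * T * √m) := by
  obtain ⟨U, O, hO, h1, h2⟩ := exists_od hm hX (zero_le_one.trans hT) h
  have hmR : (1:ℝ) ≤ m := by exact_mod_cast hm
  have hs : 0 < √(m:ℝ) := by positivity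
  let i0 : Fin m := ⟨0, by omega⟩
  refine ⟨fun _ => i0, bmDist_le_of_system X U.toContinuousLinearEquiv O O hO (fun _ => i0)
    (fun _ => √m) (fun _ => hs) ?_ (18 * T * √m) ?_⟩
  · intro b ε hε
    show ‖U (∑ i ∈ Finset.univ.filter (fun _ => i0 = b), ε i • O i)‖ ≤ √m
    by_cases hb : i0 = b
    · have h3 : (Finset.univ.filter (fun _ : Fin m => i0 = b)) = Finset.univ := by
        simp [hb]
      rw [h3]
      refine (h1 _ 1 zero_le_one fun j => ?_).trans (le_of_eq (mul_one _))
      have h4 : ⟪O j, ∑ i, ε i • O i⟫ = ε j := by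
        rw [inner_sum]
        have h5 : ∀ i, ⟪O j, ε i • O i⟫ = if j = i then ε i else 0 := by
          intro i
          rw [real_inner_smul_right, hO j i]
          split_ifs <;> ring
        rw [sum_congr rfl fun i _ => h5 i, sum_ite_eq, if_pos (mem_univ j)]
      rw [h4]
      rcases hε j with h6 | h6 <;> rw [h6] <;> simp
    · have h3 : (Finset.univ.filter (fun _ : Fin m => i0 = b)) = ∅ := by
        simp [hb]
      rw [h3]
      simp only [Finset.sum_empty, map_zero, norm_zero]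
      exact hs.le
  · intro z
    show ∑ b, √m * ‖(fun i => ⟪z, O i⟫ : {i : Fin m // i0 = b} → ℝ)‖ ≤ 18 * T * √m * ‖U z‖
    rw [Finset.sum_eq_single i0]
    · have h3 : ‖(fun i => ⟪z, O i⟫ : {i : Fin m // i0 = i0} → ℝ)‖ ≤ 18 * T * ‖U z‖ := by
        rw [pi_norm_le_iff_of_nonneg (by positivity)]
        intro i
        rw [Real.norm_eq_abs, real_inner_comm]
        exact h2 z i
      calc √m * ‖(fun i => ⟪z, O i⟫ : {i : Fin m // i0 = i0} → ℝ)‖
          ≤ √m * (18 * T * ‖U z‖) := mul_le_mul_of_nonneg_left h3 hs.le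
        _ = _ := by ring
    · intro b _ hb
      have h3 : IsEmpty {i : Fin m // i0 = b} := ⟨fun i => hb i.2.symm⟩
      have h4 : ‖(fun i => ⟪z, O i⟫ : {i : Fin m // i0 = b} → ℝ)‖ = 0 := by
        rw [norm_eq_zero]
        exact Subsingleton.elim _ _
      rw [h4, mul_zero]
    · intro h3
      exact absurd (Finset.mem_univ _) h3

end

/-- `sup_X inf_{Y, n(Y) = 1} d(X, Y)` over the `m`-dimensional real normed spaces `X` such that
`X` or the dual space of `X` has type `2` with constant `T`. -/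
noncomputable def maxDistT2 (m : ℕ) (T : ℝ) : ℝ≥0∞ :=
  ⨆ X : NSpace m, ⨆ _ : Type2 X.carrier T ∨ Type2 (StrongDual ℝ X.carrier) T,
    ⨅ Y : NSpace m, ⨅ _ : numIndex Y.carrier = 1, bmDist X.carrier Y.carrier

theorem maxDistT2_bounds {m : ℕ} (hm : 1 ≤ m) {T : ℝ} (hT : 1 ≤ T) :
    ENNReal.ofReal (2 / 3 * √m) ≤ maxDistT2 m T ∧
      maxDistT2 m T ≤ ENNReal.ofReal (18 * T * √m) := by
  refine ⟨?_, ?_⟩
  · refine (H98.inf_sqrt (by omega)).trans ?_
    exact le_iSup_of_le (⟨EuclideanSpace ℝ (Fin m), by simp⟩ : NSpace m)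
      (le_iSup_of_le (Or.inl (type2_hilbert hT)) le_rfl)
  · refine iSup_le fun X => iSup_le fun hX => ?_
    have key : ∃ β : Fin m → Fin m, bmDist X.carrier (CL β) ≤ ENNReal.ofReal (18 * T * √m) := by
      rcases hX with hX | hX
      · exact bm_one hm X.finrank_eq hT hX
      · exact bm_top hm X.finrank_eq hT hX
    obtain ⟨β, hβ⟩ := key
    exact (iInf_le_of_le (⟨CL β, CL_finrank β⟩ : NSpace m)
      (iInf_le_of_le (CL_numIndex hm β) hβ))

end D7T
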